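import Mathlib

open Real MeasureTheory Set HurwitzZeta

namespace Pool.Agent.H.MP_9b0515_pr

noncomputable def I (t : ℝ) : ℝ := if 0 ≤ sin (π * t) then 1 else 0

@[fun_prop] theorem I_meas : Measurable I :=
  Measurable.ite (measurableSet_le measurable_const (by fun_prop)) measurable_const measurable_const

theorem I_nn (t : ℝ) : 0 ≤ I t := by unfold I; split_ifs <;> norm_num

theorem I_le (t : ℝ) : ‖I t‖ ≤ 1 := by unfold I; split_ifs <;> norm_num

theorem I_add (t : ℝ) (k : ℤ) : I (t + 2 * k) = I t := by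
  unfold I; rw [show π * (t + 2 * k) = π * t + k * (2 * π) by ring, sin_add_int_mul_two_pi]

theorem I_val (m : ℤ) (u : ℝ) (h1 : m - 1 < u) (h2 : u < m + 1) (h : u ≠ m) :
    I u = 1 / 2 + (-1) ^ m * (1 / 2 - if u ≤ m then 1 else 0) := by
  have e : sin (π * u) = (-1) ^ m * sin (π * (u - m)) := by
    rw [← sin_add_int_mul_pi]; congr 1; ring
  have p := pi_pos
  unfold I
  rw [e]
  rcases lt_or_gt_of_ne h with h | h
  · have := sin_neg_of_neg_of_neg_pi_lt (x := π * (u - m)) (by nlinarith) (by nlinarith)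
    rcases Int.even_or_odd m with o | o <;> simp [o.neg_one_zpow, h.le, this.le, this.not_ge] <;> norm_num
  · have := sin_pos_of_pos_of_lt_pi (x := π * (u - m)) (by nlinarith) (by nlinarith)
    rcases Int.even_or_odd m with o | o <;> simp [o.neg_one_zpow, h.not_ge, this.le, this.not_ge] <;> norm_num

noncomputable def ee (n : ℕ) : ℝ := exp (-π * (n + 1) ^ 2 * (1 / (6 / (5 * π))))

noncomputable def C (v : ℝ) : ℝ := ∑' n : ℕ, 2 * cos (2 * π * (v / 2) * (n + 1)) * ee n

theorem ee_le (n : ℕ) : ee n ≤ ee 0 * (1 / 16) ^ n := by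
  have h : exp (-(π * (1 / (6 / (5 * π))) * 3)) ≤ 1 / 16 := by
    rw [exp_neg, one_div 16]
    refine inv_anti₀ (by norm_num) (le_trans ?_ (add_one_le_exp _))
    have := pi_gt_three
    field_simp
    nlinarith
  refine le_trans ?_ (mul_le_mul_of_nonneg_left (pow_le_pow_left₀ (exp_pos _).le h n) (exp_pos _).le)
  rw [ee, ee, ← exp_nat_mul, ← exp_add, exp_le_exp]
  have : 0 < π * (1 / (6 / (5 * π))) := by positivity
  have h2 : (n : ℝ) ≤ n ^ 2 := by exact_mod_cast Nat.le_self_pow two_ne_zero n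
  push_cast
  nlinarith

theorem ee_sum : Summable ee :=
  ((summable_geometric_of_lt_one (r := 1 / 16) (by norm_num) (by norm_num)).mul_left (ee 0)).of_nonneg_of_le
    (fun _ => (exp_pos _).le) ee_le

theorem C_bd (v : ℝ) (n : ℕ) : ‖2 * cos (2 * π * (v / 2) * (n + 1)) * ee n‖ ≤ 2 * ee n := by
  rw [norm_mul, norm_mul, norm_of_nonneg (r := ee n) (exp_pos _).le, Real.norm_ofNat]
  exact mul_le_mul_of_nonneg_right (mul_le_of_le_one_right zero_le_two (abs_cos_le_one _)) (exp_pos _).le

@[fun_prop] theorem C_cont : Continuous C :=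
  continuous_tsum (fun n => by fun_prop) (ee_sum.mul_left 2) fun n v => C_bd v n

theorem C_near (v : ℝ) : |C v - 2 * cos (π * v) * ee 0| ≤ 2 / 15 * ee 0 := by
  have s : Summable fun n : ℕ => 2 * cos (2 * π * (v / 2) * (n + 1)) * ee n :=
    .of_norm_bounded (ee_sum.mul_left 2) (C_bd v)
  rw [C, s.tsum_eq_zero_add, show 2 * π * (v / 2) * ((0 : ℕ) + 1) = π * v by push_cast; ring, add_sub_cancel_left]
  refine tsum_of_norm_bounded (g := fun n => ee 0 / 8 * (1 / 16) ^ n) ?_ fun n => (C_bd v _).trans ?_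
  · rw [show 2 / 15 * ee 0 = ee 0 / 8 * (1 - 1 / 16)⁻¹ by ring]
    exact (hasSum_geometric_of_lt_one (r := 1 / 16) (by norm_num) (by norm_num)).mul_left (ee 0 / 8)
  · have := ee_le (n + 1)
    rw [pow_succ] at this; linarith

noncomputable def cc : ℝ := 1 / (6 / (5 * π)) ^ (1 / 2 : ℝ)

theorem theta (v : ℝ) : HasSum (fun k : ℤ => exp (-(3 / 10) * (v + 2 * k) ^ 2)) (cc * (1 + C v)) := by
  have t0 : 0 < 6 / (5 * π) := by positivity
  have h := hasSum_int_evenKernel (v / 2) t0
  rw [evenKernel_functional_equation, ← add_sub_cancel 1 (cosKernel _ _),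
    ← (hasSum_nat_cosKernel₀ (v / 2) (one_div_pos.2 t0)).tsum_eq] at h
  refine h.congr_fun fun k => ?_
  congr 1
  field_simp; ring

theorem K_eq (τ : ℝ) : ∫ z, exp (-(3 / 10) * z ^ 2) * I (τ + z) =
    2 * ∫ x in (0 : ℝ)..1 / 2, cc * (1 + C (2 * x - τ)) := by
  let f : ℝ → ℝ := fun w => exp (-(3 / 10) * (2 * w - τ) ^ 2) * I (2 * w)
  have fi : Integrable f :=
    (((integrable_exp_neg_mul_sq (b := 3 / 10) (by norm_num)).comp_sub_right τ).comp_mul_left' two_ne_zero).mul_bdd
      (Measurable.aestronglyMeasurable (by fun_prop)) (ae_of_all _ fun _ => I_le _)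
  have e1 : ∫ z, exp (-(3 / 10) * z ^ 2) * I (τ + z) = 2 * ∫ w, f w := by
    rw [Measure.integral_comp_mul_left (fun u => exp (-(3 / 10) * (u - τ) ^ 2) * I u) 2,
      ← integral_sub_right_eq_self _ τ]
    simp [abs_of_pos]
  have h1 := fi.hasSum_intervalIntegral_comp_add_int
  simp only [intervalIntegral.integral_of_le zero_le_one] at h1
  have h2 := hasSum_integral_of_summable_integral_norm (μ := volume.restrict (Ioc 0 1))
    (F := fun (n : ℤ) x => f (x + n)) (fun n => (fi.comp_add_right n).integrableOn) (h1.summable.congr fun n =>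
      integral_congr_ae (ae_of_all _ fun x => (norm_of_nonneg (mul_nonneg (exp_pos _).le (I_nn _))).symm))
  rw [e1, h1.unique h2, ← intervalIntegral.integral_indicator (a₃ := 1) ⟨by norm_num, by norm_num⟩,
    intervalIntegral.integral_of_le zero_le_one, integral_Ioc_eq_integral_Ioo, integral_Ioc_eq_integral_Ioo]
  congr 1
  refine setIntegral_congr_ae measurableSet_Ioo ?_
  filter_upwards [(Set.countable_singleton (1 / 2 : ℝ)).ae_notMem volume] with x hx ⟨x0, x1⟩
  have e : ∀ n : ℤ, f (x + n) = exp (-(3 / 10) * (2 * x - τ + 2 * n) ^ 2) * I (2 * x) := fun n => by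
    simp only [f]; rw [mul_add, I_add]; congr 4; ring
  rw [tsum_congr e, tsum_mul_right, (theta _).tsum_eq, I_val 1 (2 * x) (by simpa) (by push_cast; linarith)
    (by simp only [mem_singleton_iff] at hx; push_cast; intro h; exact hx (by linarith))]
  by_cases c : x ≤ 1 / 2
  · rw [indicator_of_mem (by exact c), if_pos (by push_cast; linarith)]; ring
  · rw [indicator_of_notMem (by exact c), if_neg (by push_cast; linarith)]; ring

theorem eta : ∫ z, exp (-(3 / 10) * z ^ 2) * I (-(2 / 3) + z) < ∫ z, exp (-(3 / 10) * z ^ 2) * I (2 / 3 + z) := by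
  have c0 : 0 < cc := by unfold cc; positivity
  have e0 : 0 < ee 0 := exp_pos _
  rw [K_eq, K_eq, ← sub_pos, ← mul_sub, ← intervalIntegral.integral_sub (Continuous.intervalIntegrable (by fun_prop) _ _)
    (Continuous.intervalIntegrable (by fun_prop) _ _)]
  refine mul_pos two_pos (lt_of_lt_of_le ?_ (intervalIntegral.integral_mono_on (by norm_num)
    (f := fun x => cc * ee 0 * (2 * √3 * sin (2 * π * x) - 4 / 15)) (Continuous.intervalIntegrable (by fun_prop) _ _)
    (Continuous.intervalIntegrable (by fun_prop) _ _) fun x _ => ?_))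
  · rw [intervalIntegral.integral_const_mul, intervalIntegral.integral_sub (Continuous.intervalIntegrable (by fun_prop) _ _)
      (Continuous.intervalIntegrable (by fun_prop) _ _), intervalIntegral.integral_const_mul,
      intervalIntegral.integral_comp_mul_left _ (by positivity), integral_sin,
      show 2 * π * (1 / 2) = π by ring]
    simp only [mul_zero, cos_zero, cos_pi, smul_eq_mul, intervalIntegral.integral_const]
    have := pi_lt_four
    have := pi_pos
    have r3 : 1 ≤ √3 := one_le_sqrt.mpr (by norm_num)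
    refine mul_pos (mul_pos c0 e0) (sub_pos.2 ?_)
    field_simp
    nlinarith
  · have h1 := abs_le.1 (C_near (2 * x - 2 / 3))
    have h2 := abs_le.1 (C_near (2 * x - -(2 / 3)))
    have s1 : sin (π * (2 / 3)) = √3 / 2 := by
      rw [show π * (2 / 3) = π - π / 3 by ring, sin_pi_sub, sin_pi_div_three]
    rw [mul_sub, cos_sub, s1] at h1
    rw [sub_neg_eq_add, mul_add, cos_add, s1] at h2
    rw [sub_neg_eq_add, show 2 * π * x = π * (2 * x) by ring, ← mul_sub, mul_assoc]
    exact mul_le_mul_of_nonneg_left (by linarith) c0.le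

end Pool.Agent.H.MP_9b0515_pr
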