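import Pool.Agent.H.MP_9b0515_pr.Defs

open Real MeasureTheory ProbabilityTheory ContinuousLinearMap
open scoped NNReal

namespace Pool.Agent.H.MP_9b0515_pr

instance (n : ℕ) : IsProbabilityMeasure (gauss n) := by unfold gauss; infer_instance

theorem cf1 (v : ℝ≥0) (L : StrongDual ℝ ℝ) :
    charFunDual (gaussianReal 0 v) L = Complex.exp (-(v * L 1 ^ 2 / 2 : ℝ)) := by
  have := charFun_gaussianReal (μ := 0) (v := v) (L 1)
  rw [charFun_apply_real] at this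
  rw [charFunDual_apply]
  convert this using 3 with x
  · rw [show L x = x * L 1 by rw [← smul_eq_mul, ← map_smul]; simp]; push_cast; ring_nf
  · push_cast; ring

theorem cfn (n : ℕ) (L : StrongDual ℝ (Fin n → ℝ)) :
    charFunDual (gauss n) L = Complex.exp (-(∑ i, L (Pi.single i 1) ^ 2 / 2 : ℝ)) := by
  rw [gauss, charFunDual_pi]
  simp only [cf1, ← Complex.exp_sum]
  simp

theorem law1 (n : ℕ) (ρ τ α β : ℝ) (hα : α ^ 2 = ρ) (hβ : β ^ 2 = 1 - ρ) (hτ : τ ^ 2 = 1 - ρ ^ 2) :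
    ((gauss n).prod (gauss n)).map (fun p => (p.1, ρ • p.1 + τ • p.2)) =
      ((gauss n).prod ((gauss n).prod (gauss n))).map fun q => (α • q.1 + β • q.2.1, α • q.1 + β • q.2.2) := by
  refine Measure.ext_of_charFunDual (funext fun L => ?_)
  let E := Fin n → ℝ
  let T : E × E →L[ℝ] E × E := (fst ℝ E E).prod (ρ • fst ℝ E E + τ • snd ℝ E E)
  let U : E × E × E →L[ℝ] E × E := (α • fst ℝ E _ + β • (fst ℝ E E).comp (snd ℝ E _) : E × E × E →L[ℝ] E).prod
    (α • fst ℝ E _ + β • (snd ℝ E E).comp (snd ℝ E _))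
  refine (charFunDual_map T L).trans (Eq.trans ?_ (charFunDual_map U L).symm)
  simp only [charFunDual_prod, cfn, ← Complex.exp_add, ← neg_add, ← Complex.ofReal_add, ← Finset.sum_add_distrib]
  congr 4 with i
  have h : ∀ r s : ℝ, L (r • Pi.single i 1, s • Pi.single i 1) = r * L (Pi.single i 1, 0) + s * L (0, Pi.single i 1) :=
    fun r s => by rw [← smul_eq_mul, ← smul_eq_mul, ← map_smul, ← map_smul, ← map_add]; simp
  have h1 := h 1 ρ
  have h2 := h 0 τ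
  have h3 := h β 0
  have h4 := h 0 β
  simp only [one_smul, zero_smul] at h1 h2 h3 h4
  simp [T, U, E, h1, h2, h3, h4, h α α]
  linear_combination (-(L (Pi.single i 1, 0) + L (0, Pi.single i 1)) ^ 2 / 2) * hα -
    (L (Pi.single i 1, 0) ^ 2 + L (0, Pi.single i 1) ^ 2) / 2 * hβ + L (0, Pi.single i 1) ^ 2 / 2 * hτ

noncomputable def Q {n : ℕ} (ρ τ : ℝ) (a b : (Fin n → ℝ) → ℝ) : ℝ :=
  ∫ p, a p.1 * b (ρ • p.1 + τ • p.2) ∂(gauss n).prod (gauss n)

theorem Q_lt {n : ℕ} (ρ τ : ℝ) (h0 : 0 ≤ ρ) (h1 : ρ ≤ 1) (hτ : τ ^ 2 = 1 - ρ ^ 2) (f g : (Fin n → ℝ) → ℝ)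
    (mf : Measurable f) (mg : Measurable g) (bf : ∀ x, ‖f x‖ ≤ 1) (bg : ∀ x, ‖g x‖ ≤ 1)
    (h : Q ρ τ f f < Q ρ τ g f) : Q ρ τ f f < Q ρ τ g g := by
  let A : ((Fin n → ℝ) → ℝ) → (Fin n → ℝ) → ℝ := fun a z => ∫ w, a (√ρ • z + √(1 - ρ) • w) ∂gauss n
  have mA : ∀ a, Measurable a → StronglyMeasurable (A a) := fun a ma =>
    (show Measurable fun p : (Fin n → ℝ) × (Fin n → ℝ) => a (√ρ • p.1 + √(1 - ρ) • p.2) by
      fun_prop).stronglyMeasurable.integral_prod_right'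
  have bA : ∀ a : (Fin n → ℝ) → ℝ, (∀ x, ‖a x‖ ≤ 1) → ∀ z, ‖A a z‖ ≤ 1 := fun a ba z => by
    simpa using norm_integral_le_of_norm_le_const (μ := gauss n) (ae_of_all _ fun w => ba (√ρ • z + √(1 - ρ) • w))
  have bm : ∀ x y : ℝ, ‖x‖ ≤ 1 → ‖y‖ ≤ 1 → ‖x * y‖ ≤ 1 := fun x y hx hy => by
    rw [norm_mul]; exact mul_le_one₀ hx (norm_nonneg _) hy
  have e : ∀ a b : (Fin n → ℝ) → ℝ, Measurable a → Measurable b → (∀ x, ‖a x‖ ≤ 1) → (∀ x, ‖b x‖ ≤ 1) →
      Q ρ τ a b = ∫ z, A a z * A b z ∂gauss n := fun a b ma mb ba bb => by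
    have m : Measurable fun p : (Fin n → ℝ) × (Fin n → ℝ) => a p.1 * b p.2 := by fun_prop
    have := congrArg (fun μ => ∫ p, a p.1 * b p.2 ∂μ)
      (law1 n ρ τ √ρ √(1 - ρ) (sq_sqrt h0) (sq_sqrt (by linarith)) hτ)
    rw [integral_map (by fun_prop) m.aestronglyMeasurable, integral_map (by fun_prop) m.aestronglyMeasurable] at this
    rw [Q, this, integral_prod _ (Integrable.of_bound (Measurable.aestronglyMeasurable (by fun_prop)) 1
      (ae_of_all _ fun _ => bm _ _ (ba _) (bb _)))]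
    exact congrArg _ (funext fun z => integral_prod_mul (fun w => a (√ρ • z + √(1 - ρ) • w))
      fun w => b (√ρ • z + √(1 - ρ) • w))
  have i : ∀ a b : (Fin n → ℝ) → ℝ, Measurable a → Measurable b → (∀ x, ‖a x‖ ≤ 1) → (∀ x, ‖b x‖ ≤ 1) →
      Integrable (fun z => A a z * A b z) (gauss n) := fun a b ma mb ba bb =>
    Integrable.of_bound ((mA a ma).mul (mA b mb)).aestronglyMeasurable 1
      (ae_of_all _ fun _ => bm _ _ (bA a ba _) (bA b bb _))
  rw [e f f mf mf bf bf, e g f mg mf bg bf] at h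
  rw [e f f mf mf bf bf, e g g mg mg bg bg]
  have := integral_mono ((i g f mg mf bg bf).add (i g f mg mf bg bf)) ((i g g mg mg bg bg).add (i f f mf mf bf bf))
    fun z => by simp only [Pi.add_apply]; nlinarith [sq_nonneg (A g z - A f z)]
  simp only [Pi.add_apply] at this
  rw [integral_add (i g f mg mf bg bf) (i g f mg mf bg bf), integral_add (i g g mg mg bg bg) (i f f mf mf bf bf)] at this
  linarith

theorem law2 (τ : ℝ) (hτ : τ ^ 2 = 5 / 9) :
    ((gauss 3).prod (gauss 3)).map (fun p => (p.1 2 - (∑ i, p.1 i) / 3, ∑ i, p.1 i, τ * ∑ i, p.2 i)) =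
      (gaussianReal 0 (2 / 3)).prod ((gaussianReal 0 3).prod (gaussianReal 0 (5 / 3))) := by
  refine Measure.ext_of_charFunDual (funext fun L => ?_)
  let s : (Fin 3 → ℝ) →L[ℝ] ℝ := ∑ i, proj i
  have := charFunDual_map (μ := (gauss 3).prod (gauss 3)) ((((proj 2 - (1 / 3 : ℝ) • s).comp (fst ℝ _ _))).prod
    ((s.comp (fst ℝ _ _)).prod (τ • s.comp (snd ℝ _ _)))) L
  refine Eq.trans (by congr 2; ext p <;> simp [s, div_eq_inv_mul]) (this.trans ?_)
  simp only [charFunDual_prod, cfn, cf1, ← Complex.exp_add, ← neg_add, ← Complex.ofReal_add]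
  congr 3
  have h : ∀ r s t : ℝ, L (r, s, t) = r * L (1, 0, 0) + s * L (0, 1, 0) + t * L (0, 0, 1) := fun r s t => by
    rw [← smul_eq_mul, ← smul_eq_mul, ← smul_eq_mul, ← map_smul, ← map_smul, ← map_smul, ← map_add, ← map_add]; simp
  simp [s, Fin.sum_univ_three]
  rw [h (-3⁻¹), h (1 - 3⁻¹), h 0 0 τ]
  linear_combination 3 / 2 * L (0, 0, 1) ^ 2 * hτ

end Pool.Agent.H.MP_9b0515_pr
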