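import Pool.Agent.H.MP_9b0515_pr.A

open Real MeasureTheory Set Filter Topology ProbabilityTheory

namespace Pool.Agent.H.MP_9b0515_pr

theorem ae_ne (c : ℝ) : ∀ᵐ x : ℝ, x ≠ c := (Set.countable_singleton c).ae_notMem volume

theorem I_sub (s t : ℝ) : ‖I s - I t‖ ≤ 1 := by unfold I; split_ifs <;> norm_num

theorem inner (N : ℝ → ℝ) (hN : Integrable N) (a : ℤ → ℝ) (ha : ∀ m, |a m| < 1 / 2) :
    HasSum (fun m : ℤ => (-1) ^ m * ∫ t in m + a m..m, N t) (∫ t, (I (t - a ⌊t + 1 / 2⌋) - I t) * N t) := by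
  have m1 : Measurable fun t : ℝ => a ⌊t + 1 / 2⌋ := Measurable.of_discrete.comp (Measurable.floor (by fun_prop))
  have fi : Integrable fun t => (I (t - a ⌊t + 1 / 2⌋) - I t) * N t :=
    hN.bdd_mul (Measurable.aestronglyMeasurable (by fun_prop)) (ae_of_all _ fun _ => I_sub _ _)
  refine (fi.hasSum_intervalIntegral (-1 / 2)).congr_fun fun m => ?_
  have h := abs_lt.1 (ha m)
  have ii : ∀ c x y : ℝ, IntervalIntegrable (indicator {x | x ≤ c} N) volume x y := fun c x y =>
    (hN.indicator measurableSet_Iic).intervalIntegrable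
  rw [← intervalIntegral.integral_interval_sub_left (a := -1 / 2 + m) hN.intervalIntegrable hN.intervalIntegrable,
    ← intervalIntegral.integral_indicator (a₂ := m) (a₃ := -1 / 2 + m + 1) ⟨by linarith, by linarith⟩,
    ← intervalIntegral.integral_indicator (a₂ := m + a m) (a₃ := -1 / 2 + m + 1) ⟨by linarith, by linarith⟩,
    ← intervalIntegral.integral_sub (ii _ _ _) (ii _ _ _), ← intervalIntegral.integral_const_mul]
  refine intervalIntegral.integral_congr_ae ?_
  filter_upwards [ae_ne m, ae_ne (m + a m), ae_ne (-1 / 2 + m + 1)] with t t1 t2 t3 ht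
  rw [uIoc_of_le (by linarith)] at ht
  have t4 := lt_of_le_of_ne ht.2 t3
  have t5 := ht.1
  rw [show ⌊t + 1 / 2⌋ = m from Int.floor_eq_iff.2 ⟨by linarith, by linarith⟩,
    I_val m t (by linarith) (by linarith) t1,
    I_val m (t - a m) (by linarith) (by linarith) fun e => t2 (by linarith)]
  simp only [indicator, mem_setOf_eq, sub_le_iff_le_add]
  split_ifs <;> ring

noncomputable def ph (m : ℤ) (v : ℝ) : ℝ := sin (2 * π * (m / 3 + v))

theorem vari (N : ℝ → ℝ) (hN : Integrable N) (cN : Continuous N) (b : ℤ → ℝ) (sb : Summable b)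
    (hb : ∀ (m : ℤ) (t : ℝ), |t - m| ≤ 1 → ‖N t‖ ≤ b m) (ν : Measure ℝ) [IsProbabilityMeasure ν] :
    Tendsto (fun ε : ℝ => ∫ v, ε⁻¹ * ∫ t, (I (t - ε * ph ⌊t + 1 / 2⌋ v) - I t) * N t ∂volume ∂ν) (𝓝[>] 0)
      (𝓝 (∫ v, ∑' m : ℤ, (-1) ^ m * (-N m * ph m v) ∂ν)) := by
  have ev : ∀ᶠ ε in 𝓝[>] (0 : ℝ), ε ∈ Ioo 0 (1 / 2) := Ioo_mem_nhdsGT (by norm_num)
  have ab : ∀ ε ∈ Ioo (0 : ℝ) (1 / 2), ∀ m v, |ε * ph m v| ≤ ε := fun ε h m v => by
    rw [abs_mul, abs_of_pos h.1]; exact mul_le_of_le_one_right h.1.le (abs_sin_le_one _)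
  have hs : ∀ ε ∈ Ioo (0 : ℝ) (1 / 2), ∀ v, HasSum (fun m : ℤ => ε⁻¹ * ((-1) ^ m * ∫ t in m + ε * ph m v..m, N t))
      (ε⁻¹ * ∫ t, (I (t - ε * ph ⌊t + 1 / 2⌋ v) - I t) * N t) := fun ε h v =>
    (inner N hN (fun m => ε * ph m v) fun m => (ab ε h m v).trans_lt h.2).mul_left _
  have bd : ∀ ε ∈ Ioo (0 : ℝ) (1 / 2), ∀ v (m : ℤ), ‖ε⁻¹ * ((-1) ^ m * ∫ t in m + ε * ph m v..m, N t)‖ ≤ b m :=
    fun ε h v m => by
      have h1 := ab ε h m v
      have h2 := intervalIntegral.norm_integral_le_of_norm_le_const (a := m + ε * ph m v) (b := m) (f := N) (C := b m)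
        fun t ht => hb m t (by
          have := abs_le.1 h1
          have := h.2
          rcases mem_uIoc.1 ht with ht | ht <;> exact abs_le.2 ⟨by linarith [ht.1], by linarith [ht.2]⟩)
      rw [sub_add_cancel_left, abs_neg] at h2
      rw [norm_mul, norm_mul, norm_zpow, norm_neg, norm_one, one_zpow, one_mul, norm_inv, norm_of_nonneg h.1.le,
        inv_mul_le_iff₀ h.1, mul_comm ε (b m)]
      exact h2.trans (mul_le_mul_of_nonneg_left h1 ((norm_nonneg _).trans (hb m m (by simp))))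
  refine tendsto_integral_filter_of_dominated_convergence (fun _ => ∑' m, b m) (Eventually.of_forall fun ε => ?_)
    (ev.mono fun ε h => ae_of_all _ fun v => (hs ε h v).norm_le_of_bounded sb.hasSum (bd ε h v)) (integrable_const _)
    (ae_of_all _ fun v => ?_)
  · have m1 : Measurable fun p : ℝ × ℝ => ((⌊p.2 + 1 / 2⌋ : ℤ) : ℝ) :=
      Measurable.of_discrete.comp (Measurable.floor (by fun_prop))
    have := cN.measurable
    exact ((show Measurable fun p : ℝ × ℝ => (I (p.2 - ε * ph ⌊p.2 + 1 / 2⌋ p.1) - I p.2) * N p.2 by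
      unfold ph; fun_prop).stronglyMeasurable.integral_prod_right'.const_mul _).aestronglyMeasurable
  · refine (tendsto_tsum_of_dominated_convergence sb (fun m => ?_) (ev.mono fun ε h => bd ε h v)).congr'
      (ev.mono fun ε h => (hs ε h v).tsum_eq)
    have d1 := intervalIntegral.integral_hasDerivAt_left (a := m) (b := m) hN.intervalIntegrable
      (cN.stronglyMeasurableAtFilter _ _) cN.continuousAt
    have d2 : HasDerivAt (fun ε : ℝ => m + ε * ph m v) (ph m v) 0 := by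
      simpa using ((hasDerivAt_id (0 : ℝ)).mul_const (ph m v)).const_add (m : ℝ)
    simpa using ((d1.comp_of_eq 0 d2 (by simp)).const_mul ((-1 : ℝ) ^ m)).tendsto_slope_zero_right

noncomputable def Hf (t : ℝ) : ℝ := ∫ z, I (2 / 3 * t + z) ∂gaussianReal 0 (5 / 3)

theorem H_le (t : ℝ) : ‖Hf t‖ ≤ 1 := by
  simpa [Hf] using norm_integral_le_of_norm_le_const (μ := gaussianReal 0 (5 / 3)) (ae_of_all _ fun z => I_le (2 / 3 * t + z))

theorem sin_ne (c : ℝ) : ∀ᵐ x : ℝ, sin (π * (c + x)) ≠ 0 := by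
  filter_upwards [(countable_range fun n : ℤ => n - c).ae_notMem volume] with x hx h
  obtain ⟨n, hn⟩ := sin_eq_zero_iff.1 h
  exact hx ⟨n, by rw [mul_comm] at hn; linarith [mul_left_cancel₀ pi_ne_zero hn]⟩

theorem H_cont : Continuous Hf := continuous_iff_continuousAt.2 fun t => by
  refine continuousAt_of_dominated (bound := fun _ => 1)
    (Eventually.of_forall fun _ => Measurable.aestronglyMeasurable (by fun_prop))
    (Eventually.of_forall fun _ => ae_of_all _ fun _ => I_le _) (integrable_const _) ?_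
  filter_upwards [(gaussianReal_absolutelyContinuous 0 (by norm_num)).ae_le (sin_ne (2 / 3 * t))] with z hz
  have c : ContinuousAt (fun t => sin (π * (2 / 3 * t + z))) t := by fun_prop
  rcases lt_or_gt_of_ne hz with h | h
  · exact (continuousAt_const (y := 0)).congr ((c.eventually_lt continuousAt_const h).mono fun s hs =>
      (if_neg hs.not_ge).symm)
  · exact (continuousAt_const (y := 1)).congr ((continuousAt_const.eventually_lt c h).mono fun s hs =>
      (if_pos hs.le).symm)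

theorem H_per (t : ℝ) : Hf (t + 3) = Hf t := by
  unfold Hf; congr 1; ext z; rw [← I_add (2 / 3 * t + z) 1]; congr 1; push_cast; ring

theorem H_lt : Hf (-1) < Hf 1 := by
  have e : ∀ t, Hf t = (√(2 * π * (5 / 3)))⁻¹ * ∫ z, exp (-(3 / 10) * z ^ 2) * I (2 / 3 * t + z) := fun t => by
    rw [Hf, integral_gaussianReal_eq_integral_smul (by norm_num), ← integral_const_mul]
    congr 1; ext z
    rw [gaussianPDFReal, smul_eq_mul, mul_assoc]
    congr 4; push_cast; ring
  rw [e, e, mul_neg, mul_one]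
  exact mul_lt_mul_of_pos_left eta (by positivity)

theorem sin_int (θ : ℝ) : ∫ v, sin (θ + 2 * π * v) ∂gaussianReal 0 (2 / 3) = exp (-(4 * π ^ 2 / 3)) * sin θ := by
  have h := charFun_gaussianReal (μ := 0) (v := 2 / 3) (2 * π)
  rw [charFun_apply_real] at h
  have i : Integrable (fun v : ℝ => Complex.exp (θ * Complex.I) * Complex.exp ((2 * π : ℝ) * v * Complex.I))
      (gaussianReal 0 (2 / 3)) := Integrable.of_bound (by fun_prop) 1 (ae_of_all _ fun v => by
    rw [norm_mul, ← Complex.ofReal_mul, Complex.norm_exp_ofReal_mul_I, Complex.norm_exp_ofReal_mul_I, mul_one])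
  have := Complex.imCLM.integral_comp_comm i
  rw [integral_const_mul, h, show ((2 * π : ℝ) : ℂ) * (0 : ℝ) * Complex.I - ((2 / 3 : NNReal) : ℝ) * ((2 * π : ℝ) : ℂ) ^ 2 / 2 =
    (-(4 * π ^ 2 / 3) : ℝ) by push_cast; ring, ← Complex.ofReal_exp] at this
  simp only [Complex.imCLM_apply, ← Complex.exp_add, ← add_mul, ← Complex.ofReal_mul, ← Complex.ofReal_add,
    Complex.exp_ofReal_mul_I_im, Complex.im_mul_ofReal] at this
  rw [this, mul_comm]

theorem sum_abs : Summable fun k : ℤ => exp (-|(k : ℝ)|) :=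
  Summable.of_nat_of_neg (by simpa using summable_exp_neg_nat) (by simpa using summable_exp_neg_nat)

theorem exp_bd (m t : ℝ) (h : |t - m| ≤ 1) : exp (-t ^ 2 / 6) ≤ exp (5 / 2) * exp (-|m|) := by
  rw [← exp_add, exp_le_exp, ← sq_abs]
  have := abs_sub_abs_le_abs_sub m t
  rw [abs_sub_comm] at this
  nlinarith [sq_nonneg (|t| - 3)]

theorem num : 0 < ∑' m : ℤ, (-1) ^ m * (-(exp (-(m : ℝ) ^ 2 / 6) * Hf m) * sin (2 * π * (m / 3))) := by
  have s : Summable fun m : ℤ => (-1) ^ m * (-(exp (-(m : ℝ) ^ 2 / 6) * Hf m) * sin (2 * π * (m / 3))) :=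
    .of_norm_bounded (sum_abs.mul_left (exp (5 / 2))) fun m => by
      rw [norm_mul, norm_zpow, norm_neg, norm_one, one_zpow, one_mul, norm_mul, norm_neg, norm_mul,
        norm_of_nonneg (exp_pos _).le]
      exact (mul_le_of_le_one_right (by positivity) (abs_sin_le_one _)).trans
        ((mul_le_of_le_one_right (exp_pos _).le (H_le _)).trans (exp_bd _ _ (by simp)))
  let u : ℕ → ℝ := fun n => sin (2 * π * (n / 3)) * (Hf n - Hf (-n))
  have up : Function.Periodic u 3 := fun n => by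
    simp only [u]; push_cast
    rw [H_per, ← H_per (-(n + 3)), show 2 * π * ((n + 3) / 3) = 2 * π * (n / 3) + 2 * π by ring, sin_add_two_pi]
    congr 3; ring
  obtain ⟨δ, d0, u1, u2⟩ : ∃ δ, 0 < δ ∧ u 1 = δ ∧ u 2 = δ := by
    refine ⟨√3 / 2 * (Hf 1 - Hf (-1)), mul_pos (by positivity) (sub_pos.2 H_lt), ?_, ?_⟩ <;> simp only [u] <;> push_cast
    · rw [show 2 * π * (1 / 3) = π - π / 3 by ring, sin_pi_sub, sin_pi_div_three]
    · rw [show 2 * π * (2 / 3) = π / 3 + π by ring, sin_add_pi, sin_pi_div_three, ← H_per (-2), ← H_per (-1)]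
      norm_num; ring
  have u0 : u 0 = 0 := by simp [u]
  have ub : ∀ n, |u n| ≤ δ := fun n => by
    rw [← up.map_mod_nat n]
    have := Nat.mod_lt n (show 0 < 3 by norm_num)
    interval_cases n % 3 <;> simp [u0, u1, u2, d0.le, abs_of_pos d0]
  have h1 := s.hasSum.nat_add_neg
  replace h1 : HasSum (fun n : ℕ => -((-1) ^ n * exp (-(n : ℝ) ^ 2 / 6) * u n)) _ := h1.congr_fun fun n => by
    simp only [u]; push_cast
    rw [neg_div (3 : ℝ), mul_neg (2 * π), sin_neg, zpow_neg, zpow_natCast, ← inv_pow, inv_neg, inv_one, neg_sq]; ring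
  simp only [Int.cast_zero, zero_div, mul_zero, sin_zero, add_zero] at h1
  rw [← h1.tsum_eq, ← h1.summable.sum_add_tsum_nat_add 4]
  obtain ⟨y, hy⟩ : ∃ y, y = exp (-(2 / 3) : ℝ) := ⟨_, rfl⟩
  have y0 : 0 < y := hy ▸ exp_pos _
  have y1 : y ≤ 0.53 := by
    rw [hy, exp_neg]
    exact inv_le_of_inv_le₀ (by norm_num) (le_trans (by norm_num) (quadratic_le_exp_of_nonneg (by norm_num)))
  have h2 := tsum_of_norm_bounded ((hasSum_geometric_of_lt_one y0.le (by linarith)).mul_left (δ * y ^ 4))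
    (f := fun n : ℕ => -((-1) ^ (n + 4) * exp (-((n + 4 : ℕ) : ℝ) ^ 2 / 6) * u (n + 4))) fun n => by
      rw [norm_neg, norm_mul, norm_mul, norm_pow, norm_neg, norm_one, one_pow, one_mul, norm_of_nonneg (exp_pos _).le,
        mul_assoc, ← pow_add, mul_comm δ, hy, ← exp_nat_mul]
      refine mul_le_mul (exp_le_exp.2 ?_) (ub _) (norm_nonneg _) (exp_pos _).le
      push_cast
      nlinarith [n.cast_nonneg (α := ℝ)]
  have h3 : y ^ 4 * (1 - y)⁻¹ ≤ 0.2 := by
    rw [mul_inv_le_iff₀ (by linarith)]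
    have := pow_le_pow_left₀ y0.le y1 4
    norm_num at this ⊢; linarith
  have h4 := add_one_le_exp (-1 / 6)
  have h5 := (abs_le.1 h2).1
  have u3 : u 3 = 0 := (up 0).trans u0
  simp only [Finset.sum_range_succ, Finset.sum_range_zero, u0, u1, u2, u3]
  rw [show (-((2 : ℕ) : ℝ) ^ 2 / 6) = -(2 / 3) by norm_num, ← hy, show (-((1 : ℕ) : ℝ) ^ 2 / 6) = -1 / 6 by norm_num]
  nlinarith

theorem main : ∃ ε ∈ Ioo (0 : ℝ) (1 / 2), 0 < ∫ v, ∫ t, (I (t - ε * ph ⌊t + 1 / 2⌋ v) - I t) * Hf t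
    ∂gaussianReal 0 3 ∂gaussianReal 0 (2 / 3) := by
  let c : ℝ := (√(2 * π * 3))⁻¹
  have c0 : 0 < c := by positivity
  let N : ℝ → ℝ := fun t => c * (exp (-t ^ 2 / 6) * Hf t)
  have e : ∀ t, gaussianPDFReal 0 3 t * Hf t = N t := fun t => by
    simp only [gaussianPDFReal, N, c, mul_assoc]; norm_num
  have hN : Integrable N := funext e ▸ (integrable_gaussianPDFReal 0 3).mul_bdd H_cont.aestronglyMeasurable
    (ae_of_all _ H_le)
  have hb : ∀ (m : ℤ) (t : ℝ), |t - m| ≤ 1 → ‖N t‖ ≤ c * (exp (5 / 2) * exp (-|(m : ℝ)|)) := fun m t h => by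
    rw [norm_mul, norm_mul, norm_of_nonneg c0.le, norm_of_nonneg (exp_pos _).le]
    exact mul_le_mul_of_nonneg_left ((mul_le_of_le_one_right (exp_pos _).le (H_le _)).trans (exp_bd _ _ h)) c0.le
  have sb := (sum_abs.mul_left (exp (5 / 2))).mul_left c
  have bd : ∀ (m : ℤ) v, ‖(-1) ^ m * (-N m * ph m v)‖ ≤ c * (exp (5 / 2) * exp (-|(m : ℝ)|)) := fun m v => by
    rw [norm_mul, norm_zpow, norm_neg, norm_one, one_zpow, one_mul, norm_mul, norm_neg]
    exact (mul_le_of_le_one_right (norm_nonneg _) (abs_sin_le_one _)).trans (hb m m (by simp))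
  have t := vari N hN (by have := H_cont; fun_prop) _ sb hb (gaussianReal 0 (2 / 3))
  rw [← (hasSum_integral_of_summable_integral_norm (fun m => Integrable.of_bound (by unfold ph; fun_prop) _
    (ae_of_all _ (bd m))) (sb.of_nonneg_of_le (fun _ => by positivity) fun m => by
      simpa using integral_mono_of_nonneg (ae_of_all _ fun _ => norm_nonneg _) (integrable_const _)
        (ae_of_all (gaussianReal 0 (2 / 3)) (bd m)))).tsum_eq] at t
  simp only [integral_const_mul, ph, mul_add, sin_int] at t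
  have p := mul_pos (mul_pos c0 (exp_pos (-(4 * π ^ 2 / 3)))) num
  rw [← tsum_mul_left] at p
  obtain ⟨ε, h1, h2⟩ := ((t.eventually (lt_mem_nhds (p.trans_eq (tsum_congr fun m => by simp only [N]; ring)))).and
    (Ioo_mem_nhdsGT (show (0 : ℝ) < 1 / 2 by norm_num))).exists
  refine ⟨ε, h2, ?_⟩
  simp only [integral_gaussianReal_eq_integral_smul (μ := 0) (v := 3) (by norm_num), smul_eq_mul,
    mul_left_comm (gaussianPDFReal 0 3 _), e, ph, mul_add]
  exact (mul_pos_iff_of_pos_left (inv_pos.2 h2.1)).1 h1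

end Pool.Agent.H.MP_9b0515_pr
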