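import Pool.Agent.H.MP_9b0515_pr.B
import Pool.Agent.H.MP_9b0515_pr.C

open Real MeasureTheory Set Filter ProbabilityTheory

namespace Pool.Agent.H.MP_9b0515_pr

theorem ae_line {P : (Fin 3 → ℝ) → Prop} (m : MeasurableSet {x | P x}) (h : ∀ x, ∀ᵐ t : ℝ, P (x + fun _ => t)) :
    ∀ᵐ x, P x := by
  have := (Measure.ae_ae_comm (μ := volume) (ν := volume) (p := fun (x : Fin 3 → ℝ) (t : ℝ) => P (x + fun _ => t))
    (m.preimage (f := fun p : (Fin 3 → ℝ) × ℝ => p.1 + fun _ => p.2) (by fun_prop))).1 (ae_of_all _ h)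
  obtain ⟨t, ht⟩ := this.exists
  exact (eventually_add_right_iff volume _).1 ht

theorem per (h : (Fin 3 → ℝ) → ℝ) (h1 : ∀ x i, h (x + Pi.single i 1) = h x + 1)
    (h2 : ∀ᵐ x, sin (π * h x) ≠ 0 ∧ h (-x) = -h x) : Periodic {x | 0 ≤ sin (π * h x)} :=
  ⟨fun i => h2.mono fun x hx => by
    simp only [mem_setOf_eq, h1, mul_add, mul_one, sin_add_pi, neg_nonneg, not_le, lt_iff_le_and_ne, hx.1, ne_eq,
      not_false_eq_true, and_true],
  h2.mono fun x hx => by
    simp only [mem_setOf_eq, hx.2, mul_neg, sin_neg, neg_nonneg, not_le, lt_iff_le_and_ne, hx.1, ne_eq,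
      not_false_eq_true, and_true]⟩

noncomputable def hh (ε : ℝ) (x : Fin 3 → ℝ) : ℝ := ∑ i, x i - ε * ph ⌊∑ i, x i + 1 / 2⌋ (x 2 - (∑ i, x i) / 3)

@[fun_prop] theorem fl_meas : Measurable fun t : ℝ => ((⌊t⌋ : ℤ) : ℝ) := Measurable.of_discrete.comp Int.measurable_floor

@[fun_prop] theorem hh_meas (ε : ℝ) : Measurable (hh ε) := by
  have := fl_meas.comp (show Measurable fun x : Fin 3 → ℝ => ∑ i, x i + 1 / 2 by fun_prop)
  unfold hh ph
  exact Measurable.sub (by fun_prop) (measurable_const.mul (measurable_sin.comp (measurable_const.mul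
    ((this.div_const 3).add (by fun_prop)))))

theorem hh_per (ε : ℝ) : Periodic {x | 0 ≤ sin (π * hh ε x)} := by
  refine per _ (fun x i => ?_) (ae_line (by measurability) fun x => ?_)
  · have e : ∑ j, (x + Pi.single i 1 : Fin 3 → ℝ) j = ∑ j, x j + 1 := by simp [Finset.sum_add_distrib]
    rw [hh, hh, e, add_right_comm, Int.floor_add_one, ph, ph]
    fin_cases i
    · simp; ring_nf
    · simp; ring_nf
    · rw [← sin_sub_two_pi, sub_add_eq_add_sub]; congr 3; simp; ring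
  · have e : ∀ t : ℝ, ∑ j, (x + fun _ => t : Fin 3 → ℝ) j = ∑ j, x j + 3 * t := fun t => by simp [Finset.sum_add_distrib]
    filter_upwards [(countable_range fun p : ℤ × ℤ =>
      (p.1 + ε * ph p.2 (x 2 - (∑ i, x i) / 3) - ∑ i, x i) / 3).ae_notMem volume,
      (countable_range fun n : ℤ => (n - 1 / 2 - ∑ i, x i) / 3).ae_notMem volume] with t h1 h2
    constructor
    · intro h
      obtain ⟨n, hn⟩ := sin_eq_zero_iff.1 h
      rw [mul_comm] at hn
      have := mul_left_cancel₀ pi_ne_zero hn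
      rw [hh, e, Pi.add_apply, show x 2 + t - (∑ j, x j + 3 * t) / 3 = x 2 - (∑ i, x i) / 3 by ring] at this
      exact h1 ⟨(n, ⌊∑ j, x j + 3 * t + 1 / 2⌋), by simp only; linarith⟩
    · generalize hy : (x + fun _ => t) = y at *
      have e := hy ▸ e t
      have f : ⌊-∑ j, y j + 1 / 2⌋ = -⌊∑ j, y j + 1 / 2⌋ := by
        have h3 := lt_of_le_of_ne (Int.floor_le (∑ j, y j + 1 / 2)) fun h => h2 ⟨⌊∑ j, y j + 1 / 2⌋, by simp only; linarith⟩
        have h4 := Int.lt_floor_add_one (∑ j, y j + 1 / 2)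
        exact Int.floor_eq_iff.2 ⟨by push_cast; linarith, by push_cast; linarith⟩
      simp only [hh, Pi.neg_apply, Finset.sum_neg_distrib, f, ph, neg_sub', ← mul_neg, ← sin_neg]
      push_cast; ring_nf

theorem stab_eq (ρ : ℝ) (h : (Fin 3 → ℝ) → ℝ) (m : Measurable h) : (stab ρ {x | 0 ≤ sin (π * h x)}).toReal =
    Q ρ √(1 - ρ ^ 2) (fun x => I (h x)) fun x => I (h x) := by
  rw [stab, ← measureReal_def, ← integral_indicator_one (by simp only [mem_setOf_eq]; measurability), Q]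
  congr 1; ext p
  simp only [I, indicator, mem_setOf_eq, ite_and, Pi.one_apply]
  split_ifs <;> simp

theorem final : ∃ ε, stab (2 / 3) {x | 0 ≤ sin (π * hh 0 x)} < stab (2 / 3) {x | 0 ≤ sin (π * hh ε x)} := by
  obtain ⟨ε, -, h⟩ := main
  have hτ : √(1 - (2 / 3) ^ 2) ^ 2 = 1 - (2 / 3 : ℝ) ^ 2 := sq_sqrt (by norm_num)
  have fin : ∀ A : Set (Fin 3 → ℝ), stab (2 / 3) A ≠ ⊤ := fun _ => measure_ne_top _ _
  refine ⟨ε, (ENNReal.toReal_lt_toReal (fin _) (fin _)).1 ?_⟩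
  rw [stab_eq _ _ (hh_meas 0), stab_eq _ _ (hh_meas ε)]
  refine Q_lt _ _ (by norm_num) (by norm_num) hτ _ _ (by fun_prop) (by fun_prop) (fun _ => I_le _) (fun _ => I_le _) ?_
  generalize √(1 - (2 / 3) ^ 2) = τ at *
  have bm : ∀ x y : ℝ, ‖x‖ ≤ 1 → ‖y‖ ≤ 1 → ‖x * y‖ ≤ 1 := fun x y hx hy => by
    rw [norm_mul]; exact mul_le_one₀ hx (norm_nonneg _) hy
  let F : ℝ × ℝ × ℝ → ℝ := fun q => (I (q.2.1 - ε * ph ⌊q.2.1 + 1 / 2⌋ q.1) - I q.2.1) * I (2 / 3 * q.2.1 + q.2.2)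
  have m1 : Measurable fun q : ℝ × ℝ × ℝ => ((⌊q.2.1 + 1 / 2⌋ : ℤ) : ℝ) := fl_meas.comp (by fun_prop)
  have mF : Measurable F := by unfold F ph; fun_prop
  have bF : ∀ q, ‖F q‖ ≤ 1 := fun q => bm _ _ (I_sub _ _) (I_le _)
  have e := congrArg (fun μ => ∫ q, F q ∂μ) (law2 τ (by rw [hτ]; norm_num))
  rw [integral_map (by fun_prop) mF.aestronglyMeasurable,
    integral_prod _ (Integrable.of_bound mF.aestronglyMeasurable 1 (ae_of_all _ bF))] at e
  rw [← sub_pos, Q, Q, ← integral_sub (Integrable.of_bound (Measurable.aestronglyMeasurable (by fun_prop)) 1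
    (ae_of_all _ fun _ => bm _ _ (I_le _) (I_le _))) (Integrable.of_bound (Measurable.aestronglyMeasurable (by fun_prop)) 1
    (ae_of_all _ fun _ => bm _ _ (I_le _) (I_le _)))]
  refine h.trans_eq (Eq.trans ?_ (e.symm.trans ?_))
  · congr 1; ext v
    rw [integral_prod _ (Integrable.of_bound (Measurable.aestronglyMeasurable (by fun_prop)) 1
      (ae_of_all _ fun q => bF (v, q)))]
    simp only [F, integral_const_mul, Hf]
  · congr 1; ext p
    simp [F, hh, sub_mul, Finset.sum_add_distrib, Finset.mul_sum]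

end Pool.Agent.H.MP_9b0515_pr
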