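import Mathlib

open Real MeasureTheory ProbabilityTheory

namespace Pool.Agent.H.MP_9b0515_pr

/-- the standard Gaussian measure -/
noncomputable def gauss (n : ℕ) : Measure (Fin n → ℝ) := Measure.pi fun _ => gaussianReal 0 1

/-- translation by each basis vector and reflection map the set to its complement, up to Lebesgue null sets
(the reflection identity cannot hold at the origin) -/
def Periodic {n : ℕ} (Ω : Set (Fin n → ℝ)) : Prop :=
  (∀ i, ∀ᵐ x : Fin n → ℝ, (x + Pi.single i 1 ∈ Ω ↔ x ∉ Ω)) ∧ ∀ᵐ x : Fin n → ℝ, (-x ∈ Ω ↔ x ∉ Ω)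

/-- the periodic half space with signs `ε` -/
def halfSpace {n : ℕ} (ε : Fin n → ℝ) : Set (Fin n → ℝ) := {x | 0 ≤ sin (π * ∑ i, ε i * x i)}

/-- noise stability -/
noncomputable def stab {n : ℕ} (ρ : ℝ) (A : Set (Fin n → ℝ)) : ENNReal :=
  ((gauss n).prod (gauss n)) {p | p.1 ∈ A ∧ ρ • p.1 + √(1 - ρ ^ 2) • p.2 ∈ A}

end Pool.Agent.H.MP_9b0515_pr
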